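import Pool.Agent.Lib.TwF.UMain

/-!
# MP_7f503d_gt : coincidences of the Kauffman polynomial in families with `k` twist regions

Link diagrams are closed words of cups, caps and crossings (`Pool/Agent/Lib/Skein/Defs.lean`); the Kauffman
polynomial, twist regions and orientations are in `Pool/Agent/Lib/TwF/WDefs.lean`.
-/

namespace Pool.Agent.Results.MP_7f503d_gt.TwistFamilies

open Pool.Agent.Lib.TwF Pool.Agent.Lib.Skein

/-- Adding full twists in `k` twist regions of a diagram changes the writhe by `Σ σ_j p_j`, `σ_j = ±2`, and there are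
finitely many explicitly restricted subgroups `H 0, …, H (N-1)` of `Z^k` such that every nonzero Laurent polynomial is
the Kauffman polynomial for a set of `p` which is a union of cosets, at most one of each `H t`. -/
theorem result {k : ℕ} (L : Word → R) (hL : IsKauf L) (u : Fin (k + 1) → Word) (i : Fin k → ℕ)
    (hc : ∀ p, Closed (fam u i p)) (s : Fin k → ℤ) (w : ℤ) (ho : Ori (fam u i s) [] [] w) :
    ∃ σ : Fin k → ℤ, (∀ j, σ j = 2 ∨ σ j = -2) ∧
      (∀ p : Fin k → ℤ, Ori (fam u i (s + 2 • p)) [] [] (w + ∑ j, σ j * p j)) ∧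
      ∃ (N : ℕ) (H : Fin N → AddSubgroup (Fin k → ℤ)),
        (∀ t,
          (∃ ε : Fin k → ℤ, (∀ j, ε j = -1 ∨ ε j = 0 ∨ ε j = 1) ∧ ∀ q ∈ H t,
            ∑ j, ε j * q j = 0 ∧ ∑ j, σ j * q j + 2 * ∑ j, (if ε j = 0 then q j else 0) = 0) ∧
          ∀ (n : ℤ) (q : Fin k → ℤ), n ≠ 0 → n • q ∈ H t → q ∈ H t) ∧
        ∀ P : R, P ≠ 0 → ∃ (T : Finset (Fin N)) (v : Fin N → Fin k → ℤ), ∀ p : Fin k → ℤ,
          mon (-(w + ∑ j, σ j * p j)) 0 * L (fam u i (s + 2 • p)) = P ↔ ∃ t ∈ T, p - v t ∈ H t :=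
  umain L hL u i hc s w ho

end Pool.Agent.Results.MP_7f503d_gt.TwistFamilies
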